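import Pool.Agent.H33.PTH.Sts
import Pool.Agent.H36.M5.Box

/-!
# The path of windows: (D6), (D7), (D8)
-/

set_option autoImplicit false

namespace Pool.PTH

open Finset Real MvPolynomial
open Pool.Agent.H49.Ent Pool.Agent.H32.Dense Pool.STK Pool.KA Pool.KSAT Pool.K2S Pool.PB
open Pool.SLO Pool.SLP Pool.KAF

variable {m J : ℕ}

theorem hz_out {K P : ℕ} {G : MvPolynomial (Fin m) ℝ} (hG : G.totalDegree ≤ K)
    {s : Fin m →₀ ℕ} (hs : s ∉ mons m K) : SLO.hz P G s = 0 := by
  have h : coeff s G = 0 := by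
    by_contra hne
    refine hs ?_
    rw [mem_mons]
    exact (le_totalDegree (mem_support_iff.2 hne)).trans hG
  unfold SLO.hz
  rw [h, mul_zero, Int.floor_zero]

/-- The context from the cells and the digits of the coefficients. -/
theorem ctx_mk {F : Fam m J} {i₁ : Fin m} {a w q P K : ℕ} {H : Lb F}
    (hH : ∀ s, (H s).totalDegree ≤ K) {ω ω' : F.Ω} (h1 : F.T1 w ω = F.T1 w ω')
    (h2 : clp F i₁ a w ω = clp F i₁ a w ω') (h3 : cld F i₁ q ω = cld F i₁ q ω')
    (h4 : F.Z ω = F.Z ω') (h5 : ∀ s ∈ mons m K, SLO.hz P (plb F i₁ a w q ω (H (slam F w ω))) s =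
      SLO.hz P (plb F i₁ a w q ω' (H (slam F w ω'))) s) :
    ctx F i₁ a w q P H ω = ctx F i₁ a w q P H ω' := by
  refine Prod.ext (Prod.ext (Prod.ext h1 (Prod.ext h2 h3)) ?_) h4
  show SLO.hz P (plb F i₁ a w q ω (H (slam F w ω))) =
    SLO.hz P (plb F i₁ a w q ω' (H (slam F w ω')))
  funext s
  by_cases hs : s ∈ mons m K
  · exact h5 s hs
  · rw [hz_out (totalDegree_plb ω (hH _)) hs, hz_out (totalDegree_plb ω' (hH _)) hs]

/-- More digits. -/
theorem hz_more {R X : ℕ} {G G' : MvPolynomial (Fin m) ℝ} {s : Fin m →₀ ℕ}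
    (h : SLO.hz R G s = SLO.hz R G' s) :
    |((SLO.hz (R + X) G s - SLO.hz (R + X) G' s : ℤ) : ℝ)| ≤ 2 ^ X := by
  obtain ⟨a1, a2⟩ := hz_split R X G s
  obtain ⟨b1, b2⟩ := hz_split R X G' s
  rw [h] at a1 a2
  have e : |SLO.hz (R + X) G s - SLO.hz (R + X) G' s| ≤ 2 ^ X := by
    rw [abs_le]
    constructor <;> linarith
  have e2 : ((|SLO.hz (R + X) G s - SLO.hz (R + X) G' s| : ℤ) : ℝ) ≤ ((2 ^ X : ℤ) : ℝ) := by
    exact_mod_cast e
  push_cast at e2 ⊢
  exact e2

theorem log_two_pow (X : ℕ) (hX : 1 ≤ X) : Real.log (2 * 2 ^ X + 1) ≤ 3 * Real.log 2 * X := by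
  have h1 : (1 : ℝ) ≤ 2 ^ X := one_le_pow₀ (by norm_num)
  have h2 : (2 : ℝ) * 2 ^ X + 1 ≤ 2 ^ (X + 2) := by
    rw [pow_add]
    linarith
  have h3 := Real.log_le_log (by positivity) h2
  rw [Real.log_pow] at h3
  have hl : 0 < Real.log 2 := Real.log_pos (by norm_num)
  have hX' : (1 : ℝ) ≤ X := by exact_mod_cast hX
  push_cast at h3
  nlinarith

theorem d8_thm (m K : ℕ) : D8 m K := by
  have hl : 0 < Real.log 2 := Real.log_pos (by norm_num)
  refine ⟨(mons m K).card * (3 * Real.log 2) + K * (3 * Real.log 2), by positivity, ?_⟩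
  intro J F i₁ p a w q R X H hp hH
  have hnn := hp.nonneg
  have hN : 0 ≤ ((mons m K).card : ℝ) * (3 * Real.log 2) * X := by positivity
  have hK : 0 ≤ (K : ℝ) * (3 * Real.log 2) * X := by positivity
  refine ⟨?_, ?_, ?_, ?_⟩
  · rcases Nat.eq_zero_or_pos X with h0 | h0
    · subst h0
      rw [Nat.cast_zero, mul_zero]
      exact (CH_eq_zero hnn fun ω ω' _ _ h => h).le
    · have h1 := ch_mons hp (mons m K)
        (fun ω => SLO.hz (R + X) (plb F i₁ a w q ω (H (slam F w ω))))
        (ctx F i₁ a w q (R + X) H) (ctx F i₁ a w q R H) (2 ^ X) (by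
          intro ω ω' _ _ hh al _
          exact hz_more (congrFun (ctx_ext hh).2.2.2.2.2.1 al)) (by
          intro ω ω' _ _ hh hf
          obtain ⟨e1, e2, e3, -, -, -, -, e8⟩ := ctx_ext hh
          exact ctx_mk hH e1 e2 e3 e8 hf)
      have h2 := mul_le_mul_of_nonneg_left (log_two_pow X h0)
        (Nat.cast_nonneg (α := ℝ) (mons m K).card)
      refine h1.trans (h2.trans ?_)
      linarith
  · rcases Nat.eq_zero_or_pos X with h0 | h0
    · subst h0
      rw [Nat.cast_zero, mul_zero]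
      refine (CH_eq_zero hnn fun ω ω' _ _ h => ?_).le
      unfold fsh
      funext s
      have := congrFun (ctx_ext h).2.2.2.2.2.1 s
      rw [Nat.add_zero, this]
    · have h1 := ch_mons hp (mons m K)
        (fun ω => SLO.hz (R + X) (plb F i₁ a w q ω (H (slam F w ω))))
        (fsh F i₁ a w q K H (R + X)) (ctx F i₁ a w q R H) (2 ^ X) (by
          intro ω ω' _ _ hh al _
          exact hz_more (congrFun (ctx_ext hh).2.2.2.2.2.1 al)) (by
          intro ω ω' _ _ hh hf
          funext s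
          unfold fsh
          by_cases hs : s ∈ mons m K ∧ ¬ Pur i₁ s
          · rw [if_pos hs, if_pos hs]
            exact hf s hs.1
          · rw [if_neg hs, if_neg hs])
      have h2 := mul_le_mul_of_nonneg_left (log_two_pow X h0)
        (Nat.cast_nonneg (α := ℝ) (mons m K).card)
      refine h1.trans (h2.trans ?_)
      linarith
  · rcases Nat.eq_zero_or_pos X with h0 | h0
    · subst h0
      rw [Nat.cast_zero, mul_zero]
      refine (CH_eq_zero hnn fun ω ω' _ _ _ => ?_).le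
      funext j
      have h1 := vfi_mem (F := F) (i₁ := i₁) (a := a) (w := w) (q := q) (e := R) (X := 0)
        (H := H) ω j
      have h2 := vfi_mem (F := F) (i₁ := i₁) (a := a) (w := w) (q := q) (e := R) (X := 0)
        (H := H) ω' j
      rw [pow_zero] at h1 h2
      omega
    · have h1 := CH_le_vec hp.nonneg hp.sum_one (vfi F i₁ a w q K R X H)
        (fun _ => ()) (fun _ => 2 ^ X) (by
          intro ω ω' _ _ _ j
          obtain ⟨a1, a2⟩ := vfi_mem (F := F) (i₁ := i₁) (a := a) (w := w) (q := q) (e := R)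
            (X := X) (H := H) ω j
          obtain ⟨b1, b2⟩ := vfi_mem (F := F) (i₁ := i₁) (a := a) (w := w) (q := q) (e := R)
            (X := X) (H := H) ω' j
          have e : |vfi F i₁ a w q K R X H ω j - vfi F i₁ a w q K R X H ω' j| ≤ 2 ^ X := by
            rw [abs_le]
            constructor <;> linarith
          have e2 : ((|vfi F i₁ a w q K R X H ω j - vfi F i₁ a w q K R X H ω' j| : ℤ) : ℝ) ≤
              ((2 ^ X : ℤ) : ℝ) := by exact_mod_cast e
          push_cast at e2 ⊢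
          exact e2)
      rw [Ex_const hp.sum_one] at h1
      have h2 := mul_le_mul_of_nonneg_left (log_two_pow X h0) (Nat.cast_nonneg (α := ℝ) K)
      refine h1.trans (h2.trans ?_)
      linarith
  · refine CH_eq_zero hnn fun ω ω' _ _ hh => ?_
    obtain ⟨e1, e2, e3, -, -, e6, -, e8⟩ := ctx_ext hh
    exact ctx_mk hH e1 e2 e3 e8 fun s _ => hz_nest (by omega) _ _ s (congrFun e6 s)

/-- The cells at the longer window. -/
theorem clp_ch (F : Fam m J) {p : F.Ω → ℝ} (hp : IsLaw p) (i₁ : Fin m) {a w w' q : ℕ}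
    (h1 : w' ≤ w) (h2 : w ≤ J) (h3 : a ≤ q + w') {T : Type} (W : F.Ω → T)
    (hW : Det p W (fun ω => (F.T1 w ω, clp F i₁ a w ω, cld F i₁ q ω))) :
    CH p (clp F i₁ a w') W ≤ m * Real.log 7 := by
  have h := CH_le_vec hp.nonneg hp.sum_one (clp F i₁ a w') W (fun _ => 3) (by
    intro ω ω' hω hω' hh j
    have g := hW ω ω' hω hω' hh
    have e1 : F.T1 w ω = F.T1 w ω' := (Prod.ext_iff.1 g).1
    have e2 : clp F i₁ a w ω = clp F i₁ a w ω' := (Prod.ext_iff.1 (Prod.ext_iff.1 g).2).1
    have e3 : cld F i₁ q ω = cld F i₁ q ω' := (Prod.ext_iff.1 (Prod.ext_iff.1 g).2).2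
    obtain ⟨d1, d2⟩ := Pool.M5.Box.off_mem F i₁ h1 h2 h3 ω j
    obtain ⟨d3, d4⟩ := Pool.M5.Box.off_mem F i₁ h1 h2 h3 ω' j
    rw [← e1, ← e2, ← e3] at d3 d4
    unfold Pool.M5.Box.off at d1 d2 d3 d4
    by_cases hj : j = i₁
    · unfold clp
      rw [if_pos hj, if_pos hj, sub_self, Int.cast_zero, abs_zero]
      norm_num
    · rw [if_neg hj] at d1 d2 d3 d4
      push_cast
      rw [abs_le]
      constructor <;> linarith)
  rw [Ex_const hp.sum_one] at h
  norm_num at h ⊢
  exact h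

theorem d7_thm (m K : ℕ) : D7 m K := by
  obtain ⟨C, hC, hb⟩ := Pool.M5.Box.b1b m K
  have hl : 0 < Real.log 2 := Real.log_pos (by norm_num)
  have hl7 : 0 ≤ Real.log 7 := Real.log_nonneg (by norm_num)
  have hlC : 0 ≤ Real.log (4 * C + 3) := Real.log_nonneg (by linarith)
  refine ⟨m * Real.log 7 + (mons m K).card * Real.log (4 * C + 3) +
    (mons m K).card * (K * Real.log 2), by positivity, ?_⟩
  intro J F i₁ p a v w w' q R H hp hv hw' hw hq hH
  have hnn := hp.nonneg
  obtain ⟨n, hn⟩ : ∃ n, n = w - w' := ⟨_, rfl⟩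
  have h1 := CH_le_add hnn (ctx F i₁ a w' q R (lab F H v w')) (clp F i₁ a w')
    (ctx F i₁ a w q R (lab F H v w))
  have h2 := clp_ch F hp i₁ (a := a) hw' hw (by omega : a ≤ q + w')
    (ctx F i₁ a w q R (lab F H v w)) (by
      intro ω ω' _ _ hh
      obtain ⟨e1, e2, e3, -⟩ := ctx_ext hh
      exact Prod.ext e1 (Prod.ext e2 e3))
  have h3 := ch_mons hp (mons m K)
    (fun ω => SLO.hz R (plb F i₁ a w' q ω (lab F H v w' (slam F w' ω))))
    (ctx F i₁ a w' q R (lab F H v w'))
    (fun ω => (clp F i₁ a w' ω, ctx F i₁ a w q R (lab F H v w) ω))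
    (2 * C * 2 ^ (K * n) + 1) (by
      intro ω ω' _ _ hh al _
      have g2 : clp F i₁ a w' ω = clp F i₁ a w' ω' := (Prod.ext_iff.1 hh).1
      obtain ⟨e1, e2, e3, -, -, e6, -, e8⟩ := ctx_ext (Prod.ext_iff.1 hh).2
      have hpp : (0 : ℝ) < 2 ^ R := by positivity
      have hc : ∀ s, |coeff s (plb F i₁ a w q ω (H (slam F v ω))) -
          coeff s (plb F i₁ a w q ω' (H (slam F v ω')))| ≤ 1 / 2 ^ R := by
        intro s
        have k1 := congrFun e6 s
        rw [lab_slam F H (hv.trans hw') hw, lab_slam F H (hv.trans hw') hw] at k1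
        unfold SLO.hz at k1
        have k2 := Pool.OCT.floor_eq_near k1
        rw [← mul_sub, abs_mul, abs_of_pos hpp] at k2
        rw [le_div_iff₀ hpp, mul_comm]
        exact k2
      have k3 := (hb F i₁ a w w' q ω ω' (H (slam F v ω)) (H (slam F v ω')) (1 / 2 ^ R)
        (1 / 2 ^ R) hw' hw (by omega) e1 e2 g2 e3 (hH _) (hH _) (by positivity) (by positivity)
        (fun s _ => hc s) (fun s _ => hc s)).2 al
      rw [lab_slam F H hv (hw'.trans hw), lab_slam F H hv (hw'.trans hw)]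
      unfold SLO.hz
      refine Pool.OCT.floor_diff (L := 2 * C * 2 ^ (K * n)) ?_
      rw [← mul_sub, abs_mul, abs_of_pos hpp, hn]
      calc (2 : ℝ) ^ R * |coeff al (plb F i₁ a w' q ω (H (slam F v ω))) -
            coeff al (plb F i₁ a w' q ω' (H (slam F v ω')))| ≤
            2 ^ R * (C * 2 ^ (K * (w - w')) * (1 / 2 ^ R + 1 / 2 ^ R)) :=
            mul_le_mul_of_nonneg_left k3 hpp.le
        _ = 2 * C * 2 ^ (K * (w - w')) := by
            field_simp
            ring) (by
      intro ω ω' _ _ hh hf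
      have g2 : clp F i₁ a w' ω = clp F i₁ a w' ω' := (Prod.ext_iff.1 hh).1
      obtain ⟨e1, e2, e3, -, -, e6, -, e8⟩ := ctx_ext (Prod.ext_iff.1 hh).2
      refine ctx_mk (lab_deg F hH v w') ?_ g2 e3 e8 hf
      rw [Pool.M5.Box.T1_div F hw' hw, Pool.M5.Box.T1_div F hw' hw, e1])
  have h4 : Real.log (2 * (2 * C * 2 ^ (K * n) + 1) + 1) ≤
      Real.log (4 * C + 3) + K * Real.log 2 * n := by
    have g1 : (1 : ℝ) ≤ 2 ^ (K * n) := one_le_pow₀ (by norm_num)
    have g2 : 2 * (2 * C * 2 ^ (K * n) + 1) + 1 ≤ (4 * C + 3) * 2 ^ (K * n) := by nlinarith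
    refine (Real.log_le_log (by positivity) g2).trans (le_of_eq ?_)
    rw [Real.log_mul (by linarith) (by positivity), Real.log_pow]
    push_cast
    ring
  have h5 := mul_le_mul_of_nonneg_left h4 (Nat.cast_nonneg (α := ℝ) (mons m K).card)
  have hn0 : (0 : ℝ) ≤ n := Nat.cast_nonneg n
  rw [← hn]
  have e5 : (m * Real.log 7 + (mons m K).card * Real.log (4 * C + 3) +
      (mons m K).card * (K * Real.log 2)) * (1 + (n : ℝ)) =
      m * Real.log 7 + ((mons m K).card * (Real.log (4 * C + 3) + K * Real.log 2 * n)) +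
      (m * Real.log 7 * n + (mons m K).card * Real.log (4 * C + 3) * n +
      (mons m K).card * (K * Real.log 2)) := by ring
  rw [e5]
  have h6 : 0 ≤ (m * Real.log 7 * n + (mons m K).card * Real.log (4 * C + 3) * n +
      (mons m K).card * (K * Real.log 2)) := by positivity
  linarith

/-- The value at the corner of the small box. -/
theorem corner_change (F : Fam m J) (i₁ : Fin m) {a w w' q : ℕ} (h1 : w' ≤ w) (h2 : w ≤ J)
    (ω : F.Ω) (G : MvPolynomial (Fin m) ℝ) :
    coeff 0 (plb F i₁ a w q ω G) = eval (Pool.M5.Box.off i₁ a w w' q (F.T1 w ω)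
      (clp F i₁ a w ω) (clp F i₁ a w' ω) (cld F i₁ q ω)) (plb F i₁ a w' q ω G) := by
  have h3 : eval (0 : Fin m → ℝ) (plb F i₁ a w q ω G) = coeff 0 (plb F i₁ a w q ω G) := by
    rw [MvPolynomial.eval_zero, constantCoeff_eq]
  rw [← h3]
  unfold plb
  rw [eval_pull, eval_pull, Pool.M5.Box.sb_change F i₁ h1 h2]
  have h4 : (fun j => (if j = i₁ then (1 / 2 ^ (w - w') : ℝ) * (0 : Fin m → ℝ) j
      else (0 : Fin m → ℝ) j) + Pool.M5.Box.off i₁ a w w' q (F.T1 w ω)
      (clp F i₁ a w ω) (clp F i₁ a w' ω) (cld F i₁ q ω) j) =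
      Pool.M5.Box.off i₁ a w w' q (F.T1 w ω)
      (clp F i₁ a w ω) (clp F i₁ a w' ω) (cld F i₁ q ω) := by
    funext j
    by_cases hj : j = i₁
    · rw [if_pos hj, Pi.zero_apply, mul_zero, zero_add]
    · rw [if_neg hj, Pi.zero_apply, zero_add]
  rw [h4]

theorem d6_thm (m K : ℕ) : D6 m K := by
  classical
  obtain ⟨N, hN⟩ : ∃ N : ℝ, N = (mons m K).card := ⟨_, rfl⟩
  have hN0 : 0 ≤ N := by rw [hN]; exact Nat.cast_nonneg _
  have hlM : 0 ≤ Real.log (2 * (1 + N * 2 ^ K + 1) + 1) := Real.log_nonneg (by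
    have : 0 ≤ N * 2 ^ K := by positivity
    linarith)
  refine ⟨(mons m K).card * Real.log (2 * (1 + N * 2 ^ K + 1) + 1), by positivity, ?_⟩
  intro J F i₁ p a v w w' q e X H hp hv hw' hw hq hH
  obtain ⟨B, hB⟩ : ∃ B : F.Ω → MvPolynomial (Fin m) ℝ,
    B = fun ω => plb F i₁ a w' q ω (lab F H v w' (slam F w' ω)) := ⟨_, rfl⟩
  have hBd : ∀ ω, (B ω).totalDegree ≤ K := by
    intro ω
    rw [hB]
    exact totalDegree_plb ω (lab_deg F hH v w' _)
  have key : ∀ ω ω', (vfi F i₁ a w' q K e X (lab F H v w') ω,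
      (fsh F i₁ a w' q K (lab F H v w') (e + X) ω,
        (ctx F i₁ a w' q e (lab F H v w') ω,
          (ctx F i₁ a w q (e + X) (lab F H v w) ω, F.W ω)))) =
      (vfi F i₁ a w' q K e X (lab F H v w') ω',
      (fsh F i₁ a w' q K (lab F H v w') (e + X) ω',
        (ctx F i₁ a w' q e (lab F H v w') ω',
          (ctx F i₁ a w q (e + X) (lab F H v w) ω', F.W ω')))) →
      ∀ s ∈ mons m K, s ≠ 0 → SLO.hz (e + X) (B ω) s = SLO.hz (e + X) (B ω') s := by
    intro ω ω' hh s hs hs0
    have g1 := Prod.ext_iff.1 hh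
    have g2 := Prod.ext_iff.1 g1.2
    have g3 := Prod.ext_iff.1 g2.2
    have hv' : vfi F i₁ a w' q K e X (lab F H v w') ω =
      vfi F i₁ a w' q K e X (lab F H v w') ω' := g1.1
    have hf : fsh F i₁ a w' q K (lab F H v w') (e + X) ω =
      fsh F i₁ a w' q K (lab F H v w') (e + X) ω' := g2.1
    have hc : ctx F i₁ a w' q e (lab F H v w') ω = ctx F i₁ a w' q e (lab F H v w') ω' := g3.1
    by_cases hP : Pur i₁ s
    · have hsi : s i₁ ≠ 0 := by
        intro h0
        refine hs0 ?_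
        rw [eq_single hP, h0, Finsupp.single_zero]
      have hsK : s i₁ ≤ K := by
        have h4 := mem_mons.1 hs
        rw [eq_single hP, Finsupp.sum_single_index rfl] at h4
        exact h4
      obtain ⟨n, hn⟩ : ∃ n, s i₁ = n + 1 := ⟨s i₁ - 1, by omega⟩
      have h5 := congrFun hv' ⟨n, by omega⟩
      have h6 := congrFun (ctx_ext hc).2.2.2.2.2.1 (Finsupp.single i₁ (n + 1))
      unfold vfi at h5
      simp only at h5
      rw [h6] at h5
      rw [eq_single hP, hn, hB]
      simp only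
      linarith
    · have h5 := congrFun hf s
      unfold fsh at h5
      rw [if_pos ⟨hs, hP⟩, if_pos ⟨hs, hP⟩] at h5
      rw [hB]
      exact h5
  refine (ch_mons hp (mons m K) (fun ω => SLO.hz (e + X) (B ω)) _ _ (1 + N * 2 ^ K + 1)
    ?_ ?_)
  · intro ω ω' _ _ hh al hal
    have hk := key ω ω' hh
    by_cases h0 : al = 0
    · subst h0
      have g1 := Prod.ext_iff.1 hh
      have g2 := Prod.ext_iff.1 g1.2
      have g3 := Prod.ext_iff.1 g2.2
      have g4 := Prod.ext_iff.1 g3.2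
      have hc : ctx F i₁ a w' q e (lab F H v w') ω = ctx F i₁ a w' q e (lab F H v w') ω' := g3.1
      have hc' : ctx F i₁ a w q (e + X) (lab F H v w) ω =
        ctx F i₁ a w q (e + X) (lab F H v w) ω' := g4.1
      obtain ⟨e1, e2, e3, -, -, -, -, -⟩ := ctx_ext hc
      obtain ⟨f1, f2, f3, -, -, f6, -, -⟩ := ctx_ext hc'
      have hpp : (0 : ℝ) < 2 ^ (e + X) := by positivity
      obtain ⟨o, ho⟩ : ∃ o, o = Pool.M5.Box.off i₁ a w w' q (F.T1 w ω) (clp F i₁ a w ω) (clp F i₁ a w' ω)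
        (cld F i₁ q ω) := ⟨_, rfl⟩
      have ho' : Pool.M5.Box.off i₁ a w w' q (F.T1 w ω') (clp F i₁ a w ω') (clp F i₁ a w' ω')
        (cld F i₁ q ω') = o := by rw [ho, f1, f2, e2, e3]
      have hol : ∀ j, |o j| ≤ 2 := by
        intro j
        rw [ho]
        exact Pool.M5.Box.abs_off_le F i₁ hw' hw (by omega) ω j
      have k1 := congrFun f6 0
      unfold SLO.hz at k1
      have k2 := Pool.OCT.floor_eq_near k1
      rw [← mul_sub, abs_mul, abs_of_pos hpp] at k2
      have k3 : |eval o (B ω) - eval o (B ω')| ≤ 1 / 2 ^ (e + X) := by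
        have c1 := corner_change F i₁ (a := a) (q := q) hw' hw ω
          (lab F H v w (slam F w ω))
        have c2 := corner_change F i₁ (a := a) (q := q) hw' hw ω'
          (lab F H v w (slam F w ω'))
        rw [← ho] at c1
        rw [ho'] at c2
        rw [lab_slam F H (hv.trans hw') hw] at c1 c2
        rw [lab_slam F H (hv.trans hw') hw, lab_slam F H (hv.trans hw') hw] at k2
        rw [hB]
        simp only
        rw [lab_slam F H hv (hw'.trans hw), lab_slam F H hv (hw'.trans hw), ← c1, ← c2]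
        rw [le_div_iff₀ hpp, mul_comm]
        exact k2
      have k4 : ∀ s ∈ mons m K, s ≠ 0 → |coeff s (B ω) - coeff s (B ω')| ≤ 1 / 2 ^ (e + X) := by
        intro s hs hs0
        have k5 := hk s hs hs0
        unfold SLO.hz at k5
        have k6 := Pool.OCT.floor_eq_near k5
        rw [← mul_sub, abs_mul, abs_of_pos hpp] at k6
        rw [le_div_iff₀ hpp, mul_comm]
        exact k6
      have k7 : eval o (B ω) - eval o (B ω') = (coeff 0 (B ω) - coeff 0 (B ω')) +
          ∑ s ∈ (mons m K).erase 0, (coeff s (B ω) - coeff s (B ω')) * ∏ i, o i ^ s i := by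
        rw [eval_of_degree (hBd ω), eval_of_degree (hBd ω'), ← Finset.sum_sub_distrib,
          ← Finset.add_sum_erase _ _ (zero_mem_mons K)]
        congr 1
        · simp
        · refine Finset.sum_congr rfl fun s _ => ?_
          ring
      have k8 : |∑ s ∈ (mons m K).erase 0, (coeff s (B ω) - coeff s (B ω')) *
          ∏ i, o i ^ s i| ≤ N * (1 / 2 ^ (e + X) * 2 ^ K) := by
        refine (Finset.abs_sum_le_sum_abs _ _).trans ?_
        have k9 : ∀ s ∈ (mons m K).erase 0, |(coeff s (B ω) - coeff s (B ω')) *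
            ∏ i, o i ^ s i| ≤ 1 / 2 ^ (e + X) * 2 ^ K := by
          intro s hs
          rw [Finset.mem_erase] at hs
          rw [abs_mul]
          refine mul_le_mul (k4 s hs.2 hs.1) ?_ (abs_nonneg _) (by positivity)
          rw [Finset.abs_prod]
          have h5 : ∏ i, |o i ^ s i| ≤ ∏ i, (2 : ℝ) ^ s i := by
            refine Finset.prod_le_prod (fun i _ => abs_nonneg _) fun i _ => ?_
            rw [abs_pow]
            exact pow_le_pow_left₀ (abs_nonneg _) (hol i) _
          refine h5.trans ?_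
          rw [Finset.prod_pow_eq_pow_sum]
          refine pow_le_pow_right₀ (by norm_num) ?_
          have h6 := mem_mons.1 hs.2
          rw [Finsupp.sum_fintype _ _ (fun _ => rfl)] at h6
          exact h6
        refine (Finset.sum_le_sum k9).trans ?_
        rw [Finset.sum_const, nsmul_eq_mul]
        refine mul_le_mul_of_nonneg_right ?_ (by positivity)
        rw [hN]
        exact_mod_cast Finset.card_le_card (Finset.erase_subset _ _)
      unfold SLO.hz
      refine Pool.OCT.floor_diff (L := 1 + N * 2 ^ K) ?_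
      rw [← mul_sub, abs_mul, abs_of_pos hpp]
      have k10 : |coeff 0 (B ω) - coeff 0 (B ω')| ≤ (1 + N * 2 ^ K) / 2 ^ (e + X) := by
        have e5 : (1 + N * 2 ^ K) / 2 ^ (e + X) = 1 / 2 ^ (e + X) +
            N * (1 / 2 ^ (e + X) * 2 ^ K) := by ring
        rw [e5, abs_le]
        rw [abs_le] at k3 k8
        constructor <;> linarith [k3.1, k3.2, k8.1, k8.2]
      calc (2 : ℝ) ^ (e + X) * |coeff 0 (B ω) - coeff 0 (B ω')| ≤
          2 ^ (e + X) * ((1 + N * 2 ^ K) / 2 ^ (e + X)) := mul_le_mul_of_nonneg_left k10 hpp.le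
        _ = 1 + N * 2 ^ K := by field_simp
    · rw [hk al hal h0, sub_self, Int.cast_zero, abs_zero]
      positivity
  · intro ω ω' _ _ hh hf
    have g1 := Prod.ext_iff.1 hh
    have g2 := Prod.ext_iff.1 g1.2
    have g3 := Prod.ext_iff.1 g2.2
    have hc : ctx F i₁ a w' q e (lab F H v w') ω = ctx F i₁ a w' q e (lab F H v w') ω' := g3.1
    obtain ⟨e1, e2, e3, -, -, -, -, e8⟩ := ctx_ext hc
    refine ctx_mk (lab_deg F hH v w') e1 e2 e3 e8 ?_
    rw [hB] at hf
    exact hf

end Pool.PTH
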