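import Pool.Agent.H33.PTH.Vst
import Pool.Agent.H59.M5.CtxR

/-!
# The path of windows: the start
-/

set_option autoImplicit false

namespace Pool.PTH

open MvPolynomial Finset Real
open Pool.Agent.H49.Ent Pool.Agent.H32.Dense Pool.STK Pool.KA Pool.KSAT Pool.K2S Pool.PB
open Pool.SLO Pool.SLP Pool.KAF
open Pool.SLF (Sl Dts Qa Gap GC own st)

variable {k : ℕ}

/-- The record of lower precision. -/
theorem rcd_nest {m J : ℕ} {F : Fam m J} {i₁ : Fin m} {r a P P' : ℕ}
    {G : (Fin m → ℤ) × (ℕ × F.ζ) → MvPolynomial (Fin m) ℝ} (h : P ≤ P') {ω ω' : F.Ω}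
    (e : rcd F i₁ r a P' G ω = rcd F i₁ r a P' G ω') :
    rcd F i₁ r a P G ω = rcd F i₁ r a P G ω' := by
  have h1 := Prod.ext_iff.1 e
  refine Prod.ext h1.1 ?_
  funext al
  have h2 := congrFun h1.2 al
  exact hz_nest h _ _ al h2

theorem sta_thm (k K : ℕ) : STA k K := by
  obtain ⟨B, hB0, hB⟩ := ctx_rcd (k + 1) K
  refine ⟨B, hB0, ?_⟩
  intro J F i₁ P A N ρ q p d R a w v hP hPA hu hd hwa haρ hwv hva haJ haq hR
  have hva' : v ≤ (a + 2) * (J / N) := hva.trans (Nat.mul_le_mul_right _ (by omega))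
  have hRp : R * (J / N) ≤ p a a * (J / N) :=
    Nat.mul_le_mul_right _ (hR.trans (hd.mo a a w a le_rfl haρ hwa le_rfl))
  have h1 := hB J F i₁ (ρ * (J / N)) ((a + 2) * (J / N)) (q * (J / N)) (R * (J / N))
    (p a w * (J / N)) P (d.G a) (lab F (d.H a v) v ((a + 2) * (J / N))) hP haJ
    (Nat.mul_le_mul_right _ hR) (fun y => hd.dG a y) (fun s => hd.dH a v _) (by
      intro ω hω b hb
      rw [lab_slam F (d.H a v) hva' haJ ω]
      refine hd.tb a haρ w hwa v hwv hva ω (hPA ω hω) b fun j => (hb j).trans ?_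
      refine one_div_le_one_div_of_le (by positivity) ?_
      exact pow_le_pow_right₀ (by norm_num) (Nat.mul_le_mul_right _ (by omega)))
  refine le_trans (CH_mono_cond hP.nonneg ?_) h1
  intro ω ω' _ _ hh
  have e1 := Prod.ext_iff.1 hh
  have e2 : F.T ω = F.T ω' := (Prod.ext_iff.1 e1.2).1
  have e3 := Prod.ext_iff.1 e1.1
  exact Prod.ext (Prod.ext e2 (rcd_nest hRp e3.1)) e3.2

end Pool.PTH
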